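import Pool.Agent.Q206.Telo.Main

set_option autoImplicit false

/-!
# A telograph-cototal degree which is not `n`-cylinder-cototal for any `n` (MP_2b9a36_lc, Q1)

The definitions are in `Pool/Agent/Q206/Telo/Defs.lean` and (enumeration reducibility `ERed`, with
canonical indices) in `Pool/Agent/Q206/Intro/Defs.lean`.

The degree is that of the complement of `Graph(g)` joined with `TGraph_2(g)`, `g` sufficiently Cohen
generic. If finitely many complements of sets of initial segments worked with fixed operators for
comeagerly many `g` near some `g`, look at `k + 1` coordinates and the points `0`, `p_i` (value `1`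
at the coordinate `i`) and `g^{(j)}_m` (value `0` at `j` and `m` at the other ones): for `m → ∞` the
latter converge, in the positive information, to `0` and to the `p_i` with `i ≠ j`, while `p_j` has
the fact `g(j) ≠ 0` and `g^{(j)}_m` has not.
-/

namespace Pool.Agent.Results.MP_2b9a36_lc.TelographNotCylinder

open Q206.Telo

theorem result : ∃ a : EDeg, TelographCototal a ∧ ∀ n : ℕ, ¬ NCylinderCototal n a :=
  exists_degree

end Pool.Agent.Results.MP_2b9a36_lc.TelographNotCylinder
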